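import Pool.Agent.MP_8be872_ag.H63.LocA
import Pool.Agent.MP_8be872_ag.H63.SpecA

/-! Elimination of a contractible set of linear forms: the abstract part. -/

namespace Pool.Agent.MP_8be872_ag.H37

open Finset H38 H56 H63 MvPolynomial
open scoped Matrix

variable {E O J Γ : Type} [Fintype E] [Fintype O] [Fintype J] [DecidableEq E] [DecidableEq O]
  [DecidableEq J] [AddCommGroup Γ] {Al K T : Gn E O J → Prop} {c : Gn E O J → Γ}
  {δ : Gn E O J → Op E O J} {ω : Op E O J} {f : J → MvPolynomial (E ⊕ J) ℂ}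

theorem has_ind {E O : Type} [Fintype E] [Fintype O] [DecidableEq E] [DecidableEq O]
    {A : E ⊕ O → Prop} {L : Module.End ℂ (Sp E O)} {C : Submodule ℂ (Sp E O)}
    (h : ∀ g, A g → ∀ z, L (gn g z) ∈ C) {x : Sp E O} (hx : x ∈ mono (has A)) :
    L x ∈ C := by
  refine map_mem_of_bas (fun S m hm => ?_) hx
  obtain ⟨l, h1, h2⟩ := bas_eq_word S m
  obtain ⟨g, hg, hg'⟩ := hm
  rw [← h1] at hg'
  have hl : g ∈ l := by
    obtain ⟨a, ha, hb⟩ := List.countP_pos_iff.1 (Nat.pos_of_ne_zero hg')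
    rwa [(beq_iff' a g).1 hb]
  obtain ⟨l₁, l₂, rfl⟩ := List.append_of_mem hl
  obtain ⟨b, e⟩ : ∃ b, gn g * (l₁.map gn).prod = sg b • ((l₁.map gn).prod * gn g) :=
    ⟨_, gn_mul_word g l₁⟩
  have e' : (l₁.map gn).prod * gn g = sg b • (gn g * (l₁.map gn).prod) := by
    rw [e, smul_smul, sg_mul_self, one_smul]
  rw [h2, List.map_append, List.prod_append, List.map_cons, List.prod_cons, ← mul_assoc, e',
    smul_mul_assoc, mul_assoc, LinearMap.smul_apply, map_smul]
  exact C.smul_mem _ (h g hg _)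

theorem lin_vecMul (u : Gn E O J → ℂ) (M : Matrix (Gn E O J) (Gn E O J) ℂ) :
    (lin (u ᵥ* M) : Op E O J) = ∑ g, u g • lin (M g) := by
  simp only [lin, Matrix.vecMul, dotProduct, sum_smul, smul_sum, smul_smul]
  exact sum_comm

theorem lin_add (u u' : Gn E O J → ℂ) : (lin (u + u') : Op E O J) = lin u + lin u' := by
  simp only [lin, Pi.add_apply, add_smul, sum_add_distrib]

theorem lin_zero : (lin 0 : Op E O J) = 0 := by simp [lin]

theorem lin_single (g : Gn E O J) : (lin (Pi.single g 1) : Op E O J) = gn g := by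
  simp [lin, Pi.single_apply]

theorem lin_mem {P : (Gn E O J → ℕ) → Prop} {u : Gn E O J → ℂ}
    (h : ∀ g, u g ≠ 0 → P (Pi.single g 1)) : (lin u : Op E O J) ∈ words P :=
  Submodule.sum_mem _ fun g _ => by
    by_cases hg : u g = 0
    · simp [hg]
    · exact Submodule.smul_mem _ _ (gn_mem_words (h g hg))

theorem lin_mem_linI (ν : Matrix (Gn E O J) (Gn E O J) ℂ) (g : Gn E O J)
    (z : Sp (E ⊕ J) (O ⊕ J)) : (lin (ν g) : Op E O J) z ∈ linI ν :=
  Submodule.mem_iSup_of_mem g (LinearMap.mem_range_self _ z)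

theorem dl_al (hG : Good Al c δ ω f) {g : Gn E O J} (hg : Al g) : dl δ f g = δ g := by
  rcases g with (e | j) | o
  · rfl
  · exact absurd hg (hG.alT j)
  · rfl

/-- The linear coefficient of a generator in the differential. -/
theorem coeff_ne (hG : Good Al c δ ω f) {g g' : Gn E O J}
    (h : coeff 0 (dr g' (δ g one) ∅) ≠ 0) : Al g' ∧ c g' = c g ∧ g'.isRight = !g.isRight := by
  have h1 := dr_mem (P' := fun μ => sup Al (μ + Pi.single g' 1) ∧ ws c (μ + Pi.single g' 1) = c g ∧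
    od (μ + Pi.single g' 1) = !g.isRight) g' (words_one_mem (hG.dw g)) fun _ a => a
  have h2 := mem_mono.1 h1 ∅ 0 h
  rw [ex_zero, zero_add, sup_single, ws_single, od_single] at h2
  exact h2

theorem ws_eq_zero {a : Gn E O J → ℤ} {μ : Gn E O J → ℕ} (h : ∀ g, μ g ≠ 0 → a g = 0) :
    ws a μ = 0 :=
  sum_eq_zero fun g _ => by
    by_cases hg : μ g = 0
    · simp [hg]
    · simp [h g hg]

/-- Generators of nonzero level are stable. -/
theorem k_stable (hG : Good Al c δ ω f) (π : Γ →+ ℤ) (hK : ∀ g, K g ↔ Al g ∧ π (c g) ≠ 0)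
    (g : Gn E O J) (hg : K g) : δ g ∈ words (has K) := by
  refine words_le (fun μ hμ => ?_) (hG.dw g)
  by_contra hn
  refine ((hK g).1 hg).2 ?_
  rw [← hμ.2.1, map_ws]
  refine ws_eq_zero fun g' hg' => ?_
  by_contra h3
  exact hn ⟨g', (hK g').2 ⟨hμ.1 g' hg', h3⟩, hg'⟩

theorem om_has (hG : Good Al c δ ω f) (l : Γ →+ ℤ) (hl : ∀ g, Al g → ¬ K g → 0 < l (c g)) :
    ω ∈ words (has K) := by
  refine words_le (fun μ hμ => ?_) hG.ow
  by_contra hn
  have h1 : ∀ g, μ g ≠ 0 → 0 < l (c g) := fun g hg => hl g (hμ.1 g hg) fun h => hn ⟨g, h, hg⟩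
  have h2 : ∑ g, μ g • l (c g) = 0 := by
    have := congrArg l hμ.2.1
    rwa [map_ws, map_zero] at this
  have h3 : ∀ g ∈ univ, 0 ≤ μ g • l (c g) := fun g _ => by
    by_cases hg : μ g = 0
    · simp [hg]
    · exact nsmul_nonneg (h1 g hg).le _
  have h4 : μ = 0 := funext fun g => by
    by_contra hg
    have := (sum_eq_zero_iff_of_nonneg h3).1 h2 g (mem_univ g)
    rw [nsmul_eq_mul, mul_eq_zero] at this
    rcases this with h | h
    · exact hg (by exact_mod_cast h)
    · exact (h1 g hg).ne' h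
  have h5 := hμ.2.2
  rw [h4, od_zero] at h5
  exact absurd h5 (by simp)

open Classical in
/-- The projection to the generators satisfying `T`. -/
noncomputable def prT (T : Gn E O J → Prop) : Matrix (Gn E O J) (Gn E O J) ℂ :=
  Matrix.diagonal fun g => if T g then 1 else 0

theorem prT_row {g : Gn E O J} (hg : T g) : prT T g = Pi.single g 1 := by
  funext g'
  simp [prT, Matrix.diagonal_apply, Pi.single_apply, hg, eq_comm]

theorem prT_row' {g : Gn E O J} (hg : ¬ T g) : prT T g = 0 := by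
  funext g'
  simp [prT, Matrix.diagonal_apply, hg]

theorem mul_prT {h : Matrix (Gn E O J) (Gn E O J) ℂ} (hh : ∀ g g', h g g' ≠ 0 → T g') :
    h * prT T = h := by
  ext g g'
  rw [prT, Matrix.mul_diagonal]
  split_ifs with h1
  · exact mul_one _
  · rw [mul_zero]
    exact (of_not_not fun h2 => h1 (hh g g' h2)).symm

theorem prT_mul {d : Matrix (Gn E O J) (Gn E O J) ℂ} (hd : ∀ g g', d g g' ≠ 0 → T g) :
    prT T * d = d := by
  ext g g'
  rw [prT, Matrix.diagonal_mul]
  split_ifs with h1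
  · exact one_mul _
  · rw [zero_mul]
    exact (of_not_not fun h2 => h1 (hd g g' h2)).symm

/-- The ideal of the linear forms is stable. -/
theorem stable (hG : Good Al c δ ω f) (hK : ∀ g, K g → Al g)
    (hKd : ∀ g, K g → δ g ∈ words (has K)) (hT : ∀ g, T g → Al g)
    {d h : Matrix (Gn E O J) (Gn E O J) ℂ} (hd : ∀ g g', d g g' ≠ 0 → T g)
    (hh : ∀ g g', h g g' ≠ 0 → T g' ∧ ¬ T g) (dd : d * d = 0) (dh : d * h = prT T)
    (hR : ∀ g, T g → δ g - lin (d g) ∈ words (has fun g => K g ∨ T g)) :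
    ∀ x ∈ linI (h * d + d * h), Dloc δ ω f ∅ x ∈ linI (h * d + d * h) ⊔ mono (has K) := by
  set ν := h * d + d * h with hν
  set I := linI ν ⊔ mono (has K) with hI
  have row : ∀ g, ν g = h g ᵥ* d + prT T g := fun g => by
    rw [hν, dh]
    rfl
  have hA0 : ∀ g, K g ∨ T g → ∀ z, gn g z ∈ I := by
    rintro g (hg | hg) z
    · exact Submodule.mem_sup_right (gn_mem g (P := fun _ => True) (apiC_top z)
        fun μ _ => has_add.2 (Or.inr (has_single.2 hg)))
    · have h0 : h g = 0 := funext fun g' => of_not_not fun h1 => (hh g g' h1).2 hg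
      have := lin_mem_linI ν g z
      rw [row, h0, Matrix.zero_vecMul, zero_add, prT_row hg, lin_single] at this
      exact Submodule.mem_sup_left this
  have hA : ∀ x ∈ mono (has fun g => K g ∨ T g), x ∈ I := fun x hx =>
    has_ind (L := 1) hA0 hx
  have hR' : ∀ g, T g → ∀ z, (δ g - lin (d g)) z ∈ mono (has fun g => K g ∨ T g) := fun g hg z =>
    words_apply_mem (hR g hg) (apiC_top z) fun a b ha _ => has_add.2 (Or.inl ha)
  have dν : d * ν = d := by
    rw [hν, mul_add, ← mul_assoc, ← mul_assoc, dd, zero_mul, add_zero, dh, prT_mul hd]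
  have hL : ∀ g z, (lin (d g) : Op E O J) z ∈ I := fun g z => by
    have e : d g = d g ᵥ* ν := (congrFun dν g).symm
    rw [e, lin_vecMul, LinearMap.sum_apply]
    exact Submodule.mem_sup_left (Submodule.sum_mem _ fun g' _ =>
      Submodule.smul_mem _ _ (lin_mem_linI ν g' z))
  have br : ∀ g, Al g → ∀ z, Dloc δ ω f ∅ (gn g z) =
      δ g z + sg g.isRight • gn g (Dloc δ ω f ∅ z) := fun g hg z => by
    have := LinearMap.congr_fun (hG.Dloc_gn ∅ g) z
    rw [dl_al hG hg] at this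
    exact sub_eq_iff_eq_add.1 this
  have hC : ∀ x ∈ mono (has fun g => K g ∨ T g), Dloc δ ω f ∅ x ∈ I := fun x hx => by
    refine has_ind (fun g hg z => ?_) hx
    rw [br g (hg.elim (hK g) (hT g))]
    refine add_mem ?_ (I.smul_mem _ (hA0 g hg _))
    rcases hg with hg | hg
    · exact Submodule.mem_sup_right (words_apply_mem (hKd g hg) (apiC_top z)
        fun a b ha _ => has_add.2 (Or.inl ha))
    · have := add_mem (hA _ (hR' g hg z)) (hL g z)
      rwa [LinearMap.sub_apply, sub_add_cancel] at this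
  have hg1 : ∀ g, T g → ∀ z, gn g z ∈ mono (has fun g => K g ∨ T g) := fun g hg z =>
    gn_mem g (P := fun _ => True) (apiC_top z)
      fun μ _ => has_add.2 (Or.inr (has_single.2 (Or.inr hg)))
  have hD : ∀ g z, Dloc δ ω f ∅ ((lin (d g) : Op E O J) z) ∈ I := fun g z => by
    by_cases hg : T g
    · have e1 : (lin (d g) : Op E O J) z = Dloc δ ω f ∅ (gn g z) -
          sg g.isRight • gn g (Dloc δ ω f ∅ z) - (δ g - lin (d g)) z := by
        rw [br g (hT g hg), LinearMap.sub_apply]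
        abel
      have e2 : Dloc δ ω f ∅ (Dloc δ ω f ∅ (gn g z)) = 0 :=
        LinearMap.congr_fun (hG.Dloc_sq ∅) _
      rw [e1, map_sub, map_sub, e2, map_smul]
      exact sub_mem (sub_mem I.zero_mem (I.smul_mem _ (hC _ (hg1 g hg _)))) (hC _ (hR' g hg z))
    · have h0 : d g = 0 := funext fun g' => of_not_not fun h1 => hg (hd g g' h1)
      rw [h0, lin_zero, LinearMap.zero_apply, map_zero]
      exact I.zero_mem
  intro x hx
  refine (iSup_le fun g => ?_ : linI ν ≤ I.comap (Dloc δ ω f ∅)) hx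
  rintro _ ⟨z, rfl⟩
  rw [Submodule.mem_comap, row, lin_add, lin_vecMul, LinearMap.add_apply, map_add,
    LinearMap.sum_apply, map_sum]
  refine add_mem (I.sum_mem fun g' _ => ?_) ?_
  · rw [LinearMap.smul_apply, map_smul]
    exact I.smul_mem _ (hD g' z)
  · by_cases hg : T g
    · rw [prT_row hg, lin_single]
      exact hC _ (hg1 g hg z)
    · rw [prT_row' hg, lin_zero, LinearMap.zero_apply, map_zero]
      exact I.zero_mem

/-- The abstract form of the statement. -/
theorem elim_abs (hE : ElimAt E O J Γ) (hG : Good Al c δ ω f) (j₀ : J) (π l : Γ →+ ℤ)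
    (hK : ∀ g, K g ↔ Al g ∧ π (c g) ≠ 0) (hl : ∀ g, Al g → ¬ K g → 0 < l (c g))
    (hf : vf δ * mul (f j₀) = mul (f j₀) * vf δ) (hT : ∀ g, T g → Al g)
    {d h : Matrix (Gn E O J) (Gn E O J) ℂ}
    (hdh : ∀ g g', d g g' ≠ 0 ∨ h g g' ≠ 0 →
      Al g ∧ ¬ K g ∧ Al g' ∧ ¬ K g' ∧ c g' = c g ∧ g'.isRight = !g.isRight)
    (hlin : ∀ g, Al g → ¬ K g → δ g - lin (d g) ∈ words fun μ => 2 ≤ ∑ g', μ g')
    (hd : ∀ g g', d g g' ≠ 0 → T g)
    (hh : ∀ g g', h g g' ≠ 0 → T g' ∧ ¬ T g) (dd : d * d = 0) (dh : d * h = prT T)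
    (hR : ∀ g, T g → ¬ K g →
      δ g ∈ words fun μ => ∑ g', μ g' ≤ 1 ∨ has (fun g => K g ∨ T g) μ) :
    (∀ x ∈ linI (h * d + d * h), Dloc δ ω f ∅ x ∈ linI (h * d + d * h) ⊔ mono (has K)) ∧
    ∀ γ, Acy (Dloc δ ω f ∅) (fun p => ZZ Al c {j₀} ∅ γ p ⊓
      (linI (h * d + d * h) ⊔ (rel f ⊔ mono (has K)))) (rel f ⊔ mono (has K)) := by
  have k1 : ∀ g, K g → Al g := fun g hg => ((hK g).1 hg).1
  have k2 := k_stable hG π hK
  have d0 : ∀ g, ¬ (Al g ∧ ¬ K g) → d g = 0 := fun g hg => funext fun g' =>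
    of_not_not fun h1 => hg ⟨(hdh g g' (Or.inl h1)).1, (hdh g g' (Or.inl h1)).2.1⟩
  have st := stable hG k1 k2 hT hd hh dd dh fun g hg => by
    by_cases h1 : K g
    · rw [d0 g fun h2 => h2.2 h1, lin_zero, sub_zero]
      exact words_le (fun μ ⟨g, a, b⟩ => ⟨g, Or.inl a, b⟩) (k2 g h1)
    · have h2 : δ g - lin (d g) ∈
          words fun μ => ∑ g', μ g' ≤ 1 ∨ has (fun g => K g ∨ T g) μ :=
        sub_mem (hR g hg h1) (lin_mem fun g' _ => Or.inl (by simp))
      exact words_le (fun μ hμ => hμ.2.resolve_left (by omega))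
        (words_and (hlin g (hT g hg) h1) h2)
  refine ⟨st, fun γ => ?_⟩
  have hh0 : h * h = 0 := by
    ext g g'
    rw [Matrix.mul_apply, Matrix.zero_apply]
    refine sum_eq_zero fun g'' _ => of_not_not fun h1 => ?_
    exact (hh _ _ (right_ne_zero_of_mul h1)).2 (hh _ _ (left_ne_zero_of_mul h1)).1
  have hdh' : h * (d * h) = h := by rw [dh, mul_prT fun g g' h1 => (hh g g' h1).1]
  have := hE Al c δ ω f hG j₀ K k1 k2 (om_has hG l hl) hf l hl d h hdh (fun g => ?_) dd hh0 ?_ st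
    (fun _ => True) (fun _ _ _ _ _ => trivial) (fun _ => Iff.rfl) (fun _ _ _ _ => trivial)
    (fun x _ => Submodule.mem_sup_left (apiC_top _)) γ
  · simpa only [mono_true, top_sup_eq, inf_top_eq] using this
  · by_cases h1 : Al g
    · by_cases h2 : K g
      · rw [d0 g fun h3 => h3.2 h2, lin_zero, sub_zero]
        exact words_le (fun _ => Or.inl) (k2 g h2)
      · exact words_le (fun _ => Or.inr) (hlin g h1 h2)
    · rw [d0 g fun h3 => h1 h3.1, lin_zero, hG.dz g h1, sub_zero]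
      exact Submodule.zero_mem _
  · calc (h * d + d * h) * (h * d + d * h)
        = h * (d * h) * d + h * (d * d) * h + d * (h * h) * d + d * (h * (d * h)) := by
          simp only [mul_add, add_mul, mul_assoc]
          abel
      _ = h * d + d * h := by rw [hdh', dd, hh0]; simp

end Pool.Agent.MP_8be872_ag.H37
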