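import Pool.Agent.MP_8be872_ag.H37.Lin

/-! Module Fx1: the redundant generators of level zero span an acyclic ideal. -/

namespace Pool.Agent.MP_8be872_ag.H37

open Finset H38 H56 H63 MvPolynomial
open scoped Matrix

section Mat

variable {E O N : Type} [Fintype E] [Fintype O] [DecidableEq E] [DecidableEq O] [Fintype N]
  {P P' P'' : (E ⊕ O → ℕ) → Prop} {M M' : Matrix N N (Module.End ℂ (Sp E O))}

/-- All entries are spanned by words satisfying `P`. -/
def MIn (P : (E ⊕ O → ℕ) → Prop) (M : Matrix N N (Module.End ℂ (Sp E O))) : Prop :=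
  ∀ p q, M p q ∈ words P

theorem MIn.mul (h : MIn P M) (h' : MIn P' M') (hP : ∀ a b, P a → P' b → P'' (a + b)) :
    MIn P'' (M * M') := fun p q => by
  rw [Matrix.mul_apply]
  exact Submodule.sum_mem _ fun r _ => mul_mem_words (h p r) (h' r q) hP

theorem MIn.add (h : MIn P M) (h' : MIn P M') : MIn P (M + M') := fun p q =>
  add_mem (h p q) (h' p q)

theorem MIn.sub (h : MIn P M) (h' : MIn P M') : MIn P (M - M') := fun p q =>
  sub_mem (h p q) (h' p q)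

theorem MIn.le (h : MIn P M) (hP : ∀ μ, P μ → P' μ) : MIn P' M := fun p q =>
  words_le hP (h p q)

theorem MIn.sum {ι : Type} {s : Finset ι} {F : ι → Matrix N N (Module.End ℂ (Sp E O))}
    (h : ∀ i, MIn P (F i)) : MIn P (∑ i ∈ s, F i) := fun p q => by
  rw [Matrix.sum_apply]
  exact Submodule.sum_mem _ fun i _ => h i p q

theorem MIn.pow [DecidableEq N] (h : MIn (fun _ => True) M) (n : ℕ) :
    MIn (fun _ => True) (M ^ n) := by
  induction n with
  | zero =>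
    intro p q
    rw [pow_zero, Matrix.one_apply]
    split_ifs
    · exact one_mem_words trivial
    · exact Submodule.zero_mem _
  | succ n ih =>
    rw [pow_succ]
    exact ih.mul h fun _ _ _ _ => trivial

theorem MIn.const (A : Matrix N N ℂ) (h : P 0) :
    MIn P (A.map (algebraMap ℂ (Module.End ℂ (Sp E O)))) := fun p q => by
  rw [Matrix.map_apply, Algebra.algebraMap_eq_smul_one]
  exact Submodule.smul_mem _ _ (one_mem_words h)

end Mat

variable {Q : Quiv} {w v D : Fin Q.n → ℕ} {J : Type} [Fintype J] [DecidableEq J]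
  {d : Bas Q v → ℕ} {lab : Bas Q D → Bas Q v × ℕ}

open Classical in
theorem base_in {P : (Ix Q w v D J ⊕ Ix Q w v D J → ℕ) → Prop} (k : Kd Q)
    (h : ∀ p q, shS lab k p q → P (Pi.single (gg k p q) 1)) :
    MIn P fun p q : Nb Q w v D => if shS lab k p q then gn (gg k p q) else 0 := fun p q => by
  dsimp only
  split_ifs with h1
  · exact gn_mem_words (h p q h1)
  · exact Submodule.zero_mem _

theorem ys_in {P : (Ix Q w v D J ⊕ Ix Q w v D J → ℕ) → Prop} {k : Kd Q} (h1 : k ≠ ka)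
    (h2 : k ≠ kc) (h : ∀ p q, shS lab k p q → P (Pi.single (gg k p q) 1)) :
    MIn P (YS lab (fun k p q => gn (gg k p q)) k) := by
  simp only [YS, if_neg h1]
  rw [if_neg h2]
  exact base_in k h

theorem ys_a {P : (Ix Q w v D J ⊕ Ix Q w v D J → ℕ) → Prop} (h0 : P 0)
    (h : ∀ p q, shS lab ka p q → P (Pi.single (gg ka p q) 1)) :
    MIn P (YS lab (fun k p q => gn (gg k p q)) ka) := by
  simp only [YS, if_true]
  exact (MIn.const _ h0).add (base_in ka h)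

theorem ys_c : MIn (fun _ : Ix Q w v D J ⊕ Ix Q w v D J → ℕ => True)
    (YS lab (fun k p q => gn (gg k p q)) kc) := by
  have h1 : (kc : Kd Q) ≠ ka := by simp
  simp only [YS, if_neg h1]
  have a0 := MIn.const (E := Ix Q w v D J) (O := Ix Q w v D J) (P := fun _ => True)
    (al0 (w := w) lab) trivial
  refine MIn.sum fun i => MIn.mul (P := fun _ => True) (MIn.mul (MIn.pow (fun p q => a0 q p) i)
    (base_in (P := fun _ => True) kc fun _ _ _ => trivial) fun _ _ _ _ => trivial)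
    ((a0.add (base_in ka fun _ _ _ => trivial)).pow i) fun _ _ _ _ => trivial

theorem dS_T (pos : ∀ p q : Nb Q w v D, shS lab ka p q → 0 < lvk d lab ka p q)
    (g : Ix Q w v D J ⊕ Ix Q w v D J) (hg : T0 d lab g) : dS lab g ∈ words fun μ =>
      ∑ g', μ g' ≤ 1 ∨ has (fun g => lvNe d lab g ∨ T0 d lab g) μ := by
  obtain ⟨k, p, q, rfl, hs⟩ := al_gg hg.1.1
  rw [dS, ofM_gg, if_pos hs]
  obtain ⟨Y, hY⟩ : ∃ Y, Y = YS (w := w) lab
    (fun k p q => (gn (gg k p q) : OpQ Q w v D J)) := ⟨_, rfl⟩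
  obtain ⟨A, hA⟩ : ∃ A : Ix Q w v D J ⊕ Ix Q w v D J → Prop,
    A = fun g => lvNe d lab g ∨ T0 d lab g := ⟨_, rfl⟩
  rw [← hY, ← hA]
  have a : MIn (fun μ => μ = 0 ∨ has A μ) (Y ka) := hY ▸ ys_a (Or.inl rfl) fun p q h =>
    Or.inr (has_single.2 (hA ▸ Or.inl ⟨al_iff.2 h, lv_eq ka p q ▸ (pos p q h).ne'⟩))
  have c : MIn (fun _ => True) (Y kc) := hY ▸ ys_c
  have t : ∀ k, TZ k → MIn (has A) (Y k) := fun k hk => hY ▸ ys_in
    (by rcases hk with ⟨ε, rfl⟩ | rfl <;> simp) (by rcases hk with ⟨ε, rfl⟩ | rfl <;> simp)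
    fun p q h => has_single.2 (hA ▸ by
      by_cases h1 : lvk d lab k p q = 0
      · exact Or.inr (t0_iff.2 ⟨⟨h, h1⟩, hk⟩)
      · exact Or.inl ⟨al_iff.2 h, lv_eq k p q ▸ h1⟩)
  have x : ∀ k, TZ k → MIn (fun μ => ∑ g', μ g' ≤ 1) (Y (par k)) := fun k hk => hY ▸ ys_in
    (by rcases hk with ⟨ε, rfl⟩ | rfl <;> simp [par])
    (by rcases hk with ⟨ε, rfl⟩ | rfl <;> simp [par]) fun p q h => by simp
  have m1 : ∀ k, TZ k → MIn (fun μ => ∑ g', μ g' ≤ 1 ∨ has A μ)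
      (Y (par k) * Y ka - Y ka * Y (par k)) := fun k hk =>
    ((x k hk).mul a fun a b ha hb => hb.imp (fun h => by rwa [h, add_zero])
      fun h => has_add.2 (Or.inr h)).sub (a.mul (x k hk) fun a b ha hb =>
        ha.imp (fun h => by rwa [h, zero_add]) fun h => has_add.2 (Or.inl h))
  have m2 : ∀ {M} k, MIn (fun _ => True) M → TZ k →
      MIn (fun μ => ∑ g', μ g' ≤ 1 ∨ has A μ) (M * Y k) := fun k h hk =>
    h.mul (t k hk) fun a b _ hb => Or.inr (has_add.2 (Or.inr hb))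
  have m3 : ∀ {M} k, MIn (fun _ => True) M → TZ k →
      MIn (fun μ => ∑ g', μ g' ≤ 1 ∨ has A μ) (Y k * M) := fun k h hk =>
    (t k hk).mul h fun a b ha _ => Or.inr (has_add.2 (Or.inl ha))
  have tt : ∀ ε, TZ (kt ε : Kd Q) := fun ε => Or.inl ⟨ε, rfl⟩
  have xx : ∀ ε, MIn (fun _ => True) (Y (kx ε)) := fun ε => (x _ (tt ε)).le fun _ _ => trivial
  rcases (t0_iff.1 hg).2 with ⟨ε, rfl⟩ | rfl
  · exact (((m1 _ (tt ε)).sub (m2 _ c (tt ε))).sub (m3 _ c (tt ε))) p q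
  · have z : TZ (kz : Kd Q) := Or.inr rfl
    exact ((((m1 _ z).sub (MIn.sum fun o => (((m2 _ (xx _) (tt _)).add (m3 _ (xx _) (tt _))).sub
      (m2 _ (xx _) (tt _))).sub (m3 _ (xx _) (tt _)))).add (m3 _ c z)).sub (m2 _ c z)) p q

/-- Module Fx1. -/
theorem fx1 : ElimStmt → SlFStmt → SlWStmt → ToepStmt → LinSStmt → Fx1Stmt := by
  intro hE hF hW hT hL Q w v D J _ _ σ d lab m P φ₀ f φ j₀ hC
  have hG := (hF Q w v D J σ d lab m hC.isLab hC.vert hC.const).1 φ f hC.hom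
  obtain ⟨w1, -, w3, ⟨l, w4⟩, -⟩ := hW Q w v D J σ d lab hC.isLab hC.vert
  obtain ⟨l1, l2, l3, l4⟩ := hL Q w v D J d lab hC.isLab
  have H : LH J w d lab := ⟨hC.isLab, fun g g' h => ⟨(l3 g g' h).1, (l3 g g' h).2, by
    rw [← w1 φ g (l3 g g' h).1, ← w1 φ g' (l3 g g' h).2, (coeff_ne hG h).2.1]⟩, l2, w3, l4⟩
  obtain ⟨h, h1, h2, h3⟩ := H.exists_h hT
  rw [← h3]
  refine elim_abs (T := T0 d lab) (hE _ _ _ _) hG j₀ (co 0) l (fun g => and_congr_right fun a => ?_)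
    (fun g a b => (w4 φ g a).2 fun c => b ⟨a, ?_⟩) hC.closed (fun g a => a.1.1) (fun g g' a => ?_)
    (fun g a b => ?_) (fun g g' a => H.d1_T a) (fun g g' a => ⟨(h1 g g' a).2.1, (h1 g g' a).2.2.1⟩)
    H.d1_sq h2 fun g a _ => dS_T w3 g a
  · rw [w1 φ g a]
  · obtain ⟨k, p, q, rfl, rfl, -⟩ := ofM_ind (U := id) c (fun _ => id) fun _ => id
    rw [lv_eq]
    exact (w3 p q (al_iff.1 a)).ne'
  · rcases a with a | a
    · obtain ⟨b1, b2, b3⟩ := H.d1_ne a
      exact ⟨b1.1, fun c => c.2 b1.2, b2.1, fun c => c.2 b2.2, (coeff_ne hG b3).2⟩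
    · obtain ⟨b1, b2, -, b3, b4⟩ := h1 g g' a
      exact ⟨b1.1, fun c => c.2 b1.2, b2.1.1, fun c => c.2 b2.1.2, b4 σ φ, b3⟩
  · have e : d1 d lab g = d0 lab g := funext fun g' =>
      if_pos ⟨a, of_not_not fun c => b ⟨a, c⟩⟩
    rw [e]
    exact l1 g

end Pool.Agent.MP_8be872_ag.H37
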