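import Pool.Agent.MP_8be872_ag.H37.Abs
import Pool.Agent.MP_8be872_ag.H63.SpecD

/-! The contraction of the redundant generators of level zero. -/

namespace Pool.Agent.MP_8be872_ag.H37

open Finset H38 H56 H63 MvPolynomial
open scoped Matrix

variable {Q : Quiv} {w v D : Fin Q.n → ℕ} {J : Type} {d : Bas Q v → ℕ}
  {lab : Bas Q D → Bas Q v × ℕ}

theorem ofM_gg {A : Type} (M : Kd Q → Nb Q w v D → Nb Q w v D → A) (t e : J → A) (k : Kd Q)
    (p q : Nb Q w v D) : ofM M t e (gg k p q) = M k p q := by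
  rcases k with k | k <;> rfl

theorem gg_inj {k k' : Kd Q} {p q p' q' : Nb Q w v D} :
    (gg k p q : Ix Q w v D J ⊕ Ix Q w v D J) = gg k' p' q' ↔ k = k' ∧ p = p' ∧ q = q' := by
  rcases k with k | k <;> rcases k' with k' | k' <;> simp [gg]

theorem gg_isRight (k : Kd Q) (p q : Nb Q w v D) :
    (gg k p q : Ix Q w v D J ⊕ Ix Q w v D J).isRight = k.isRight := by
  rcases k with k | k <;> rfl

theorem ofM_ind {A : Type} {M : Kd Q → Nb Q w v D → Nb Q w v D → A} {t e : J → A}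
    {g : Ix Q w v D J ⊕ Ix Q w v D J} {U : A → Prop} (h : U (ofM M t e g))
    (ht : ∀ j, ¬ U (t j)) (he : ∀ j, ¬ U (e j)) : ∃ k p q, g = gg k p q ∧ U (M k p q) := by
  rcases g with (⟨τ, p, q⟩ | j) | (⟨τ, p, q⟩ | j)
  · exact ⟨.inl τ, p, q, rfl, h⟩
  · exact absurd h (ht j)
  · exact ⟨.inr τ, p, q, rfl, h⟩
  · exact absurd h (he j)

theorem al_gg {g : Ix Q w v D J ⊕ Ix Q w v D J} (h : AlS lab g) :
    ∃ k p q, g = gg k p q ∧ shS lab k p q :=
  ofM_ind (U := id) h (fun _ => id) fun _ => id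

theorem al_iff {k : Kd Q} {p q : Nb Q w v D} :
    AlS lab (gg k p q : Ix Q w v D J ⊕ Ix Q w v D J) ↔ shS lab k p q := by
  rw [AlS, ofM_gg]

theorem lv_eq (k : Kd Q) (p q : Nb Q w v D) :
    lvG d lab (gg k p q : Ix Q w v D J ⊕ Ix Q w v D J) = lvk d lab k p q := ofM_gg ..

/-- The kinds `θ` and `ζ`. -/
def TZ (k : Kd Q) : Prop := (∃ ε, k = kt ε) ∨ k = kz

/-- The partner of `θ` is `x`, that of `ζ` is `η`. -/
def par : Kd Q → Kd Q
  | .inr (.inl ε) => kx ε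
  | _ => ke

theorem TZ.pr {k : Kd Q} (h : TZ k) : (∃ ε, par k = kx ε ∧ k = kt ε) ∨ (par k = ke ∧ k = kz) := by
  rcases h with ⟨ε, rfl⟩ | rfl
  · exact Or.inl ⟨ε, rfl, rfl⟩
  · exact Or.inr ⟨rfl, rfl⟩

theorem TZ.inj {k k' : Kd Q} (h : TZ k) (h' : TZ k') (e : par k = par k') : k = k' := by
  rcases h with ⟨ε, rfl⟩ | rfl <;> rcases h' with ⟨ε', rfl⟩ | rfl <;> simp_all [par]

theorem TZ.not_par {k : Kd Q} (h : TZ k) : ¬ TZ (par k) := by
  rcases h with ⟨ε, rfl⟩ | rfl <;> simp [par, TZ]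

theorem TZ.lin {k : Kd Q} (h : TZ k) (y : Kd Q → Matrix (Nb Q w v D) (Nb Q w v D) ℂ) :
    linPhi lab y k = cm0 lab (y (par k)) := by
  rcases h with ⟨ε, rfl⟩ | rfl <;> rfl

theorem kind_cases (k : Kd Q) : TZ k ∨ k = ka ∨ k = kc ∨ ∃ k', TZ k' ∧ k = par k' := by
  rcases k with (ε | _ | _) | (ε | _ | _)
  · exact Or.inr (Or.inr (Or.inr ⟨kt ε, Or.inl ⟨ε, rfl⟩, rfl⟩))
  · exact Or.inl (Or.inr rfl)
  · exact Or.inr (Or.inl rfl)
  · exact Or.inl (Or.inl ⟨ε, rfl⟩)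
  · exact Or.inr (Or.inr (Or.inr ⟨kz, Or.inr rfl, rfl⟩))
  · exact Or.inr (Or.inr (Or.inl rfl))

theorem TZ.wt {k : Kd Q} (h : TZ k) (x : Nb Q w v D → G) (φ : J → G) {p q p' q' : Nb Q w v D}
    (e : x q - x p = x q' - x p' + qq) : wt x φ (gg k p' q') = wt x φ (gg (par k) p q) := by
  rcases h with ⟨ε, rfl⟩ | rfl
  · change x q' - x p' - (arrWt Q ε - qq) = x q - x p - arrWt Q ε
    rw [e]
    abel
  · change x q' - x p' - (-hb - qq) = x q - x p - -hb
    rw [e]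
    abel

theorem TZ.col {k : Kd Q} (h : TZ k) {p q : Nb Q w v D} (hs : shS lab k p q) : blk q = 0 := by
  rcases h with ⟨ε, rfl⟩ | rfl <;> exact hs.1.2

theorem blk_zero {q : Nb Q w v D} (h : blk q = 0) : ∃ τ, q = .inl τ := by
  rcases q with τ | a | b
  · exact ⟨τ, rfl⟩
  · simp [blk] at h
  · simp [blk] at h

theorem al0_ne (hl : IsLab d lab) {r p : Nb Q w v D} (h : al0 lab r p ≠ 0) :
    vx r = vx p ∧ lv d lab r = lv d lab p + 1 ∧ blk r < 2 := by
  rcases p with τ | p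
  · have h1 : hp lab r = some (lab τ) := of_not_not fun h2 => h (if_neg h2)
    rcases r with τ' | a | b
    · have h2 : ((lab τ').1, (lab τ').2 + 1) = lab τ := Option.some.inj h1
      refine ⟨?_, ?_, by simp [blk]⟩
      · change τ'.1 = τ.1
        rw [← hl.vert, ← hl.vert, ← h2]
      · simp only [lv, ← h2]
        push_cast
        ring
    · have h2 : (a, 0) = lab τ := Option.some.inj h1
      refine ⟨?_, ?_, by simp [blk]⟩
      · change a.1 = τ.1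
        rw [← hl.vert, ← h2]
      · simp only [lv, ← h2]
        push_cast
        ring
    · simp [hp] at h1
  · exact absurd rfl h

theorem al0_pow (hl : IsLab d lab) (n : ℕ) {p' p : Nb Q w v D} (h : (al0 lab ^ n) p' p ≠ 0) :
    vx p' = vx p ∧ lv d lab p' = lv d lab p + n ∧ (blk p < 2 → blk p' < 2) := by
  induction n generalizing p with
  | zero =>
    have : p' = p := of_not_not fun h1 => h (by rw [pow_zero, Matrix.one_apply_ne h1])
    simp [this]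
  | succ n ih =>
    rw [pow_succ, Matrix.mul_apply] at h
    obtain ⟨r, -, hr⟩ := exists_ne_zero_of_sum_ne_zero h
    obtain ⟨a1, a2, a3⟩ := ih (left_ne_zero_of_mul hr)
    obtain ⟨b1, b2, b3⟩ := al0_ne hl (right_ne_zero_of_mul hr)
    refine ⟨a1.trans b1, ?_, fun _ => a3 b3⟩
    rw [a2, b2]
    push_cast
    ring

theorem TZ.shift (hl : IsLab d lab) {k : Kd Q} (h : TZ k) {p p' : Nb Q w v D} {τ : Bas Q D}
    (hs : shS lab (par k) p (.inl τ)) (h0 : lvk d lab (par k) p (.inl τ) = 0)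
    (hp : (al0 lab ^ ((lab τ).2 + 1)) p' p ≠ 0) :
    shS lab (par k) p' (.inr (.inl (lab τ).1)) ∧
      lvk d lab (par k) p' (.inr (.inl (lab τ).1)) = 0 := by
  obtain ⟨a1, a2, a3⟩ := al0_pow hl _ hp
  have b0 : blk p = 0 := by rcases h with ⟨ε, rfl⟩ | rfl <;> exact hs.1.2 rfl
  have b1 : blk p' < 2 := a3 (by omega)
  have b2 : blk (.inr (.inl (lab τ).1) : Nb Q w v D) = 1 := rfl
  have b3 : vx (.inr (.inl (lab τ).1) : Nb Q w v D) = vx (.inl τ : Nb Q w v D) := hl.vert τ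
  constructor
  · rcases h with ⟨⟨_ | e, s⟩, rfl⟩ | rfl
    · have := hs.1.1.2
      have b4 : blk (.inl τ : Nb Q w v D) = 0 := rfl
      split_ifs at this <;> omega
    · exact ⟨⟨⟨b1, by omega, a1.trans hs.1.1.2.2.1, b3.trans hs.1.1.2.2.2⟩,
        fun h => by omega⟩, fun h => by simp [par] at h⟩
    · exact ⟨⟨⟨a1.trans (hs.1.1.1.trans b3.symm), b1, by omega⟩, fun h => by omega⟩,
        fun h => by simp [par] at h⟩
  · have e : ∀ p q : Nb Q w v D, lvk d lab (par k) p q = lv d lab q - lv d lab p := fun p q => by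
      rcases h with ⟨ε, rfl⟩ | rfl <;> exact add_zero _
    rw [e] at h0 ⊢
    rw [a2]
    simp only [lv] at h0 ⊢
    push_cast
    omega

variable [Fintype J] [DecidableEq J]

/-- Generators of level zero. -/
def L0 (d : Bas Q v → ℕ) (lab : Bas Q D → Bas Q v × ℕ) (g : Ix Q w v D J ⊕ Ix Q w v D J) : Prop :=
  AlS lab g ∧ lvG d lab g = 0

/-- The generators `θ` and `ζ` of level zero. -/
def T0 (d : Bas Q v → ℕ) (lab : Bas Q D → Bas Q v × ℕ) (g : Ix Q w v D J ⊕ Ix Q w v D J) : Prop :=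
  L0 d lab g ∧ kind TZ g

theorem l0_iff {k : Kd Q} {p q : Nb Q w v D} :
    L0 d lab (gg k p q : Ix Q w v D J ⊕ Ix Q w v D J) ↔ shS lab k p q ∧ lvk d lab k p q = 0 := by
  rw [L0, al_iff, lv_eq]

theorem t0_iff {k : Kd Q} {p q : Nb Q w v D} :
    T0 d lab (gg k p q : Ix Q w v D J ⊕ Ix Q w v D J) ↔
      (shS lab k p q ∧ lvk d lab k p q = 0) ∧ TZ k := by
  rw [T0, l0_iff, kind, ofM_gg]

open Classical in
/-- The linear part of the differential in level zero. -/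
noncomputable def d1 (d : Bas Q v → ℕ) (lab : Bas Q D → Bas Q v × ℕ) :
    Matrix (Ix Q w v D J ⊕ Ix Q w v D J) (Ix Q w v D J ⊕ Ix Q w v D J) ℂ :=
  fun g g' => if L0 d lab g then d0 lab g g' else 0

open Classical in
/-- The matrices of a point of level zero. -/
noncomputable def m0 (d : Bas Q v → ℕ) (lab : Bas Q D → Bas Q v × ℕ)
    (y : Ix Q w v D J ⊕ Ix Q w v D J → ℂ) (k : Kd Q) : Matrix (Nb Q w v D) (Nb Q w v D) ℂ :=
  fun p q => if shS lab k p q ∧ lvk d lab k p q = 0 then y (gg k p q) else 0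

/-- The facts on the linear part. -/
structure LH (J : Type) [Fintype J] [DecidableEq J] (w : Fin Q.n → ℕ) (d : Bas Q v → ℕ)
    (lab : Bas Q D → Bas Q v × ℕ) : Prop where
  isLab : IsLab d lab
  ne : ∀ g g', d0 (w := w) (J := J) lab g g' ≠ 0 →
    AlS lab g ∧ AlS lab g' ∧ lvG d lab g' = lvG d lab g
  sq : d0 (w := w) (J := J) lab * d0 lab = 0
  pos : ∀ p q : Nb Q w v D, shS lab ka p q → 0 < lvk d lab ka p q
  lin : ∀ (y : Ix Q w v D J ⊕ Ix Q w v D J → ℂ) k p q, shS lab k p q →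
    (∀ p q, y (gg ka p q) = 0) → (d0 lab *ᵥ y) (gg k p q) = linPhi lab (fun k p q =>
      open Classical in if shS lab k p q then y (gg k p q) else 0) k p q

variable (H : LH J w d lab)
include H

theorem LH.d1_ne {g g' : Ix Q w v D J ⊕ Ix Q w v D J} (h : d1 d lab g g' ≠ 0) :
    L0 d lab g ∧ L0 d lab g' ∧ d0 lab g g' ≠ 0 := by
  classical
  obtain ⟨a, b⟩ := ite_ne_right_iff.1 h
  obtain ⟨-, b2, b3⟩ := H.ne g g' b
  exact ⟨a, ⟨b2, b3.trans a.2⟩, b⟩

theorem LH.d1_sq : d1 (w := w) (J := J) d lab * d1 d lab = 0 := by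
  ext g g'
  rw [Matrix.mul_apply, Matrix.zero_apply]
  by_cases hg : L0 d lab g
  · refine Eq.trans (sum_congr rfl fun g'' _ => ?_) (congrFun (congrFun H.sq g) g')
    by_cases h1 : d0 lab g g'' = 0
    · simp [d1, h1]
    · have h2 : d1 d lab g g'' ≠ 0 := by rwa [d1, if_pos hg]
      rw [d1, d1, if_pos hg, if_pos (H.d1_ne h2).2.1]
  · simp [d1, hg]

theorem LH.d1_gg (y : Ix Q w v D J ⊕ Ix Q w v D J → ℂ) {k : Kd Q} {p q : Nb Q w v D}
    (hs : shS lab k p q) : (d1 d lab *ᵥ y) (gg k p q) = linPhi lab (m0 d lab y) k p q := by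
  classical
  have h1 := H.lin (fun g => if L0 d lab g then y g else 0) k p q hs fun p q =>
    if_neg fun h => (H.pos p q (l0_iff.1 h).1).ne' (l0_iff.1 h).2
  have h2 : (fun k p q => if shS lab k p q then
      (if L0 d lab (gg k p q : Ix Q w v D J ⊕ Ix Q w v D J) then y (gg k p q) else 0) else 0) =
        m0 d lab y := by
    funext k p q
    by_cases h3 : shS lab k p q ∧ lvk d lab k p q = 0
    · rw [m0, if_pos h3, if_pos h3.1, if_pos (l0_iff.2 h3)]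
    · rw [m0, if_neg h3, if_neg (fun h => h3 (l0_iff.1 h)), ite_self]
  rw [← h2, ← h1]
  refine sum_congr rfl fun g' _ => ?_
  by_cases h3 : d0 lab (gg k p q) g' = 0
  · simp [d1, h3]
  · obtain ⟨a, b, c⟩ := H.ne _ _ h3
    by_cases h4 : L0 d lab (gg k p q : Ix Q w v D J ⊕ Ix Q w v D J)
    · have h5 : L0 d lab g' := ⟨b, c.trans h4.2⟩
      simp [d1, h4, h5]
    · have h5 : ¬ L0 d lab g' := fun h => h4 ⟨a, c.symm.trans h.2⟩
      simp [d1, h4, h5]

theorem LH.d1_T {g g' : Ix Q w v D J ⊕ Ix Q w v D J} (h : d1 d lab g g' ≠ 0) : T0 d lab g := by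
  have h1 := (H.d1_ne h).1
  obtain ⟨k, p, q, rfl, hs⟩ := al_gg h1.1
  have h2 := H.d1_gg (Pi.single g' 1) hs
  rw [Matrix.mulVec_single_one, Matrix.col_apply] at h2
  rw [h2] at h
  refine t0_iff.2 ⟨l0_iff.1 h1, ?_⟩
  rcases k with (ε | _ | _) | (ε | _ | _)
  · exact absurd rfl h
  · exact Or.inr rfl
  · exact absurd (l0_iff.1 h1).2 (H.pos p q hs).ne'
  · exact Or.inl ⟨ε, rfl⟩
  · exact absurd rfl h
  · exact absurd rfl h

theorem LH.col (hT : ToepStmt) (g' : Ix Q w v D J ⊕ Ix Q w v D J) :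
    ∃ y : Ix Q w v D J ⊕ Ix Q w v D J → ℂ, (∀ g, y g ≠ 0 → L0 d lab g ∧ T0 d lab g' ∧
      (∃ k p τ, TZ k ∧ g = gg (par k) p (.inl τ)) ∧ g'.isRight = (!g.isRight) ∧
      ∀ σ (φ : J → G), wt (xs σ d lab) φ g' = wt (xs σ d lab) φ g) ∧
      (T0 d lab g' → d1 d lab *ᵥ y = Pi.single g' 1) := by
  classical
  by_cases hg : T0 d lab g'
  swap
  · exact ⟨0, fun g h => absurd rfl h, fun h => absurd h hg⟩
  obtain ⟨k, p', q', rfl, -⟩ := al_gg hg.1.1
  obtain ⟨⟨a1, a2⟩, hk⟩ := t0_iff.1 hg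
  have t1 : ∀ p q, Matrix.single p' q' (1 : ℂ) p q ≠ 0 → p' = p ∧ q' = q := fun p q h =>
    of_not_not fun h1 => h (Matrix.single_apply_of_ne _ _ _ _ _ h1)
  obtain ⟨Y, b1, b2, b3⟩ := ((hT Q w v D d lab H.isLab).1 (par k) k hk.pr).2
    (Matrix.single p' q' 1) fun p q h => of_not_not fun h1 => by
      obtain ⟨rfl, rfl⟩ := t1 p q h1
      exact h ⟨a1, a2.le⟩
  have b4 : ∀ p q, Y p q ≠ 0 → (shS lab (par k) p q ∧ lvk d lab (par k) p q = 0) ∧ blk q = 0 ∧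
      ∀ σ, xs σ d lab q - xs σ d lab p = xs σ d lab q' - xs σ d lab p' + qq := fun p q h => by
    obtain ⟨p₁, q₁, c1, c2, c3⟩ := b2 p q h
    obtain ⟨rfl, rfl⟩ := t1 _ _ c1
    have := of_not_not fun h1 => h (b1 p q h1)
    exact ⟨⟨this.1, c2.trans a2⟩, this.2, c3⟩
  refine ⟨ofM (fun k₁ p q => if k₁ = par k then Y p q else 0) 0 0, fun g h => ?_, fun _ => ?_⟩
  · obtain ⟨k₁, p, q, rfl, h1⟩ := ofM_ind (U := (· ≠ 0)) h (fun _ h => h rfl) fun _ h => h rfl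
    obtain ⟨rfl, h2⟩ := ite_ne_right_iff.1 h1
    obtain ⟨c1, c2, c3⟩ := b4 p q h2
    obtain ⟨τ, rfl⟩ := blk_zero c2
    refine ⟨l0_iff.2 c1, hg, ⟨k, p, τ, hk, rfl⟩, ?_, fun σ φ => hk.wt _ φ (c3 σ)⟩
    rcases hk with ⟨ε, rfl⟩ | rfl <;> rfl
  · funext g
    by_cases h1 : T0 d lab g
    · obtain ⟨k₂, p, q, rfl, hs⟩ := al_gg h1.1.1
      have hk₂ := (t0_iff.1 h1).2
      rw [H.d1_gg _ hs, hk₂.lin, Pi.single_apply]
      by_cases h2 : k₂ = k
      · subst h2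
        have e : m0 d lab (ofM (J := J) (fun k₁ p q => if k₁ = par k₂ then Y p q else 0) 0 0)
            (par k₂) = Y := by
          funext p q
          rw [m0, ofM_gg, if_pos rfl]
          split_ifs with h3
          · rfl
          · exact (of_not_not fun h4 => h3 (b4 p q h4).1).symm
        rw [e, b3 p q hs, Matrix.single_apply]
        exact if_congr (by rw [gg_inj]; tauto) rfl rfl
      · have e : m0 d lab (ofM (J := J) (fun k₁ p q => if k₁ = par k then Y p q else 0) 0 0)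
            (par k₂) = 0 := by
          funext p q
          rw [m0, ofM_gg, if_neg fun h => h2 (hk₂.inj hk h), ite_self]
          rfl
        rw [e, if_neg fun h => h2 (gg_inj.1 h).1]
        simp [cm0]
    · have e : d1 d lab g = 0 := funext fun g'' => of_not_not fun h => h1 (H.d1_T h)
      have h2 : g ≠ gg k p' q' := fun h => h1 (h ▸ hg)
      rw [Pi.single_eq_of_ne h2, Matrix.mulVec, e, zero_dotProduct]

omit H in
theorem nuF_zero {g : Ix Q w v D J ⊕ Ix Q w v D J} (hg : ¬ L0 d lab g) : nuF d lab g = 0 := by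
  by_contra h
  obtain ⟨k, p, q, rfl, h1⟩ := ofM_ind (U := (· ≠ 0)) h (fun _ h => h rfl) fun _ h => h rfl
  exact h1 (if_neg fun h2 => hg (l0_iff.2 ⟨h2.1, h2.2.1⟩))

theorem LH.exists_h (hT : ToepStmt) :
    ∃ h : Matrix (Ix Q w v D J ⊕ Ix Q w v D J) (Ix Q w v D J ⊕ Ix Q w v D J) ℂ,
      (∀ g g', h g g' ≠ 0 → L0 d lab g ∧ T0 d lab g' ∧ ¬ T0 d lab g ∧
        g'.isRight = (!g.isRight) ∧
        ∀ σ (φ : J → G), wt (xs σ d lab) φ g' = wt (xs σ d lab) φ g) ∧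
      d1 d lab * h = prT (T0 d lab) ∧ h * d1 d lab + d1 d lab * h = nuF d lab := by
  classical
  choose col c1 c2 using H.col hT
  obtain ⟨h, hh⟩ : ∃ h : Matrix (Ix Q w v D J ⊕ Ix Q w v D J) (Ix Q w v D J ⊕ Ix Q w v D J) ℂ,
      ∀ g g', h g g' = col g' g := ⟨Matrix.of fun g g' => col g' g, fun _ _ => rfl⟩
  have dh : d1 d lab * h = prT (T0 d lab) := by
    ext g g'
    have e : (d1 d lab * h : Matrix _ _ ℂ) g g' = (d1 d lab *ᵥ col g') g := by
      simp only [Matrix.mul_apply, hh]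
      rfl
    rw [e, prT, Matrix.diagonal_apply]
    by_cases hg : T0 d lab g'
    · rw [c2 g' hg, Pi.single_apply]
      split_ifs with h1 h2
      · rfl
      · exact absurd (h1 ▸ hg) h2
      · rfl
    · have e' : col g' = 0 := funext fun g => of_not_not fun h1 => hg (c1 g' g h1).2.1
      rw [e', Matrix.mulVec_zero]
      split_ifs with h1 h2
      · exact absurd (h1 ▸ h2) hg
      · rfl
      · rfl
  have h0 : ∀ g, (¬ L0 d lab g ∨ ∀ k p τ, TZ k → g ≠ gg (par k) p (.inl τ)) → h g = 0 :=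
    fun g hg => funext fun g' => of_not_not fun h1 => by
      obtain ⟨a, -, ⟨k, p, τ, b1, b2⟩, -⟩ := c1 g' g (hh g g' ▸ h1)
      exact hg.elim (fun h2 => h2 a) fun h2 => h2 k p τ b1 b2
  refine ⟨h, fun g g' h1 => ?_, dh, ?_⟩
  · obtain ⟨a, b, ⟨k, p, τ, b1, rfl⟩, c⟩ := c1 g' g (hh g g' ▸ h1)
    exact ⟨a, b, fun h2 => b1.not_par (t0_iff.1 h2).2, c⟩
  funext g
  have row : (h * d1 d lab + d1 d lab * h : Matrix _ _ ℂ) g =
      h g ᵥ* d1 d lab + prT (T0 d lab) g := by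
    rw [dh]
    rfl
  rw [row]
  by_cases hg : L0 d lab g
  swap
  · rw [h0 g (Or.inl hg), prT_row' fun h => hg h.1, nuF_zero hg, Matrix.zero_vecMul, add_zero]
  obtain ⟨k, p, q, rfl, hs⟩ := al_gg hg.1
  have hl := (l0_iff.1 hg).2
  rw [nuF, ofM_gg]
  rcases kind_cases k with hk | rfl | rfl | ⟨k', hk, rfl⟩
  · obtain ⟨τ, rfl⟩ := blk_zero (hk.col hs)
    have n1 : k ≠ kc := by rcases hk with ⟨ε, rfl⟩ | rfl <;> simp
    have n2 : ¬ ((∃ ε, k = kx ε) ∨ k = ke) := by rcases hk with ⟨ε, rfl⟩ | rfl <;> simp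
    rw [h0 _ (Or.inr fun k' _ _ a b => a.not_par ((gg_inj.1 b).1 ▸ hk)), Matrix.zero_vecMul,
      zero_add, prT_row (t0_iff.2 ⟨⟨hs, hl⟩, hk⟩), if_pos ⟨hs, hl, n1⟩]
    dsimp only
    rw [if_neg n2, sub_zero]
  · exact absurd hl (H.pos p q hs).ne'
  · rw [h0 _ (Or.inr fun k' _ _ a b => ?_), prT_row' fun h => ?_, if_neg fun h => h.2.2 rfl,
      Matrix.zero_vecMul, add_zero]
    · simpa [TZ] using (t0_iff.1 h).2
    · have := (gg_inj.1 b).1
      rcases a with ⟨ε, rfl⟩ | rfl <;> simp [par] at this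
  have n1 : par k' ≠ kc := by rcases hk with ⟨ε, rfl⟩ | rfl <;> simp [par]
  have n2 : (∃ ε, par k' = kx ε) ∨ par k' = ke := hk.pr.imp (fun ⟨ε, a, _⟩ => ⟨ε, a⟩) And.left
  rw [prT_row' fun h => hk.not_par (t0_iff.1 h).2, add_zero, if_pos ⟨hs, hl, n1⟩]
  have hV : ∀ p q, h (gg (par k') p (.inr q)) = 0 := fun p q =>
    h0 _ (Or.inr fun _ _ _ _ b => by simpa using (gg_inj.1 b).2.2)
  rcases q with τ | q
  swap
  · rw [hV, Matrix.zero_vecMul]
  dsimp only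
  rw [if_pos n2]
  refine dotProduct_eq _ _ fun y => ?_
  set u := h *ᵥ (d1 d lab *ᵥ y) with hu
  have e1 : d1 d lab *ᵥ (y - u) = 0 := by
    rw [Matrix.mulVec_sub, hu, Matrix.mulVec_mulVec, Matrix.mulVec_mulVec, dh,
      prT_mul (T := T0 d lab) (d := d1 d lab) fun _ _ h => H.d1_T h, sub_self]
  have e2 := (((hT Q w v D d lab H.isLab).1 (par k') k' hk.pr).1 (m0 d lab (y - u) (par k'))
    (fun p q h => if_neg fun h1 => h h1.1) fun p q h => by
      rw [← hk.lin, ← H.d1_gg _ h, e1]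
      rfl).2 p τ
  rw [m0, if_pos ⟨hs, hl⟩, Pi.sub_apply, sub_eq_iff_eq_add, ← sub_eq_iff_eq_add'] at e2
  rw [← Matrix.dotProduct_mulVec, sub_dotProduct, single_dotProduct, one_mul, sum_dotProduct]
  refine e2.symm.trans (congrArg _ (sum_congr rfl fun p' _ => ?_))
  rw [smul_dotProduct, single_dotProduct, one_mul, smul_eq_mul]
  by_cases h1 : (al0 lab ^ ((lab τ).2 + 1)) p' p = 0
  · rw [h1, zero_mul, zero_mul]
  · rw [m0, if_pos (hk.shift H.isLab hs hl h1), Pi.sub_apply, hu, Matrix.mulVec, hV,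
      zero_dotProduct, sub_zero]

end Pool.Agent.MP_8be872_ag.H37
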